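import Pool.Agent.helper37.NG.Spec

set_option autoImplicit false

namespace Pool.Agent.helper37.NG

open Finset Pool.Agent.NK Pool.Agent.helper37.NF

lemma G31_g (s : ℕ) (X : ℝ) :
    g3 ((s + 2 : ℕ) : ℝ) * (sig ((s + 1 : ℕ) : ℝ) * (sig (s : ℝ) * X)) = 15 * X := by
  have hs : (0 : ℝ) ≤ s := Nat.cast_nonneg s
  unfold g3 sig
  push_cast
  have e1 : 3 * ((s : ℝ) + 2) - 5 = 3 * s + 1 := by ring
  have e2 : 3 * ((s : ℝ) + 2) - 4 = 3 * s + 2 := by ring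
  have e3 : 3 * ((s : ℝ) + 2) - 2 = 3 * s + 4 := by ring
  have e4 : 3 * ((s : ℝ) + 2) - 1 = 3 * s + 5 := by ring
  have e5 : 3 * ((s : ℝ) + 1) + 1 = 3 * s + 4 := by ring
  have e6 : 3 * ((s : ℝ) + 1) + 2 = 3 * s + 5 := by ring
  have e7 : 2 * ((s : ℝ) + 1) + 1 = 2 * s + 3 := by ring
  have e8 : 2 * ((s : ℝ) + 1) + 2 = 2 * s + 4 := by ring
  have e9 : 2 * ((s : ℝ) + 2) - 1 = 2 * s + 3 := by ring
  have e10 : 2 * ((s : ℝ) + 2) - 3 = 2 * s + 1 := by ring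
  have e11 : (s : ℝ) + 2 - 1 = s + 1 := by ring
  rw [e1, e2, e3, e4, e5, e6, e7, e8, e9, e10, e11]
  have d1 : 3 * (s : ℝ) + 1 ≠ 0 := by positivity
  have d2 : 3 * (s : ℝ) + 2 ≠ 0 := by positivity
  have d3 : 3 * (s : ℝ) + 4 ≠ 0 := by positivity
  have d4 : 3 * (s : ℝ) + 5 ≠ 0 := by positivity
  have d5 : 2 * (s : ℝ) + 1 ≠ 0 := by positivity
  have d6 : 2 * (s : ℝ) + 2 ≠ 0 := by positivity
  have d7 : 2 * (s : ℝ) + 3 ≠ 0 := by positivity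
  have d8 : 2 * (s : ℝ) + 4 ≠ 0 := by positivity
  field_simp
  ring

theorem G31 (h1 : AVG_stmt) (h2 : BA3_stmt) (h3 : RE3_stmt) (h4 : LC3_stmt) : G31_stmt := by
  intro a b i j hi hj hn
  refine h1 i j (3 * (i + j)) (g3 ((i + j : ℕ) : ℝ)) (by omega) (by omega) (by omega) ?_ a b hn
  intro a' b' hab
  have e1 : a'.choose i * b'.choose j ≤ 15 * c3 (i + j - 2) :=
    (h2 a' b' i j (by omega) (by omega) hab).trans (h4 i j hi hj)
  obtain ⟨s, hs⟩ : ∃ s, i + j = s + 2 := ⟨i + j - 2, by omega⟩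
  have e2 : i + j - 2 = s := by omega
  rw [e2] at e1
  have e3 : (a'.choose i : ℝ) * (b'.choose j : ℝ) ≤ 15 * (c3 s : ℝ) := by exact_mod_cast e1
  have e4 : ((3 * (i + j)).choose (i + j) : ℝ) = (c3 (s + 2) : ℝ) := by
    rw [hs]
    rfl
  have e5 : (c3 (s + 2) : ℝ) = sig ((s + 1 : ℕ) : ℝ) * (sig (s : ℝ) * (c3 s : ℝ)) := by
    have := h3 (s + 1)
    rw [h3 s] at this
    exact this
  rw [e4, e5, hs, G31_g]
  exact e3

end Pool.Agent.helper37.NG
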