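import Pool.Agent.helper37.NG.Spec
import Pool.Agent.helper55.NK.Base

set_option autoImplicit false

namespace Pool.Agent.helper37.NG

open Finset Pool.Agent.NK Pool.Agent.helper37.NF

theorem MO3_mono (N r : ℕ) (d : ℕ) (h : 2 * (r + d) ≤ N) : N.choose r ≤ N.choose (r + d) := by
  induction d with
  | zero => exact le_rfl
  | succ d ih =>
    have h1 := ih (by omega)
    have h2 : N.choose (r + d) ≤ N.choose (r + d + 1) :=
      Nat.choose_le_succ_of_lt_half_left (by omega)
    exact h1.trans h2

theorem MO3_mono' (N r r' : ℕ) (hr : r ≤ r') (h : 2 * r' ≤ N) : N.choose r ≤ N.choose r' := by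
  obtain ⟨d, rfl⟩ : ∃ d, r' = r + d := ⟨r' - r, by omega⟩
  exact MO3_mono N r d h

theorem MO3_one (N r : ℕ) (h1 : 1 ≤ r) (h2 : r + 1 ≤ N) : N.choose 1 ≤ N.choose r := by
  rcases Nat.lt_or_ge N (2 * r) with h | h
  · rw [← Nat.choose_symm (show r ≤ N by omega)]
    exact MO3_mono' N 1 (N - r) (by omega) (by omega)
  · exact MO3_mono' N 1 r h1 h

theorem MO3 : MO3_stmt := by
  intro n s t hs hst hn
  rcases Nat.eq_or_lt_of_le hst with h | h
  · rw [h]
  · have key : (n - (n + 1) / s).choose (s - 1) ≤ (n - (n + 1) / s).choose (t - 1) := by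
      rcases Nat.lt_or_ge s 3 with h3 | h3
      · have hs2 : s = 2 := by omega
        subst hs2
        exact MO3_one _ _ (by omega) (by omega)
      · have hq : (n + 1) / s ≤ (n + 1) / 3 := Nat.div_le_div_left h3 (by norm_num)
        exact MO3_mono' _ _ _ (by omega) (by omega)
    unfold MV
    calc (n + 1) / s * (n - (n + 1) / s).choose (s - 1)
        ≤ (n + 1) / s * (n - (n + 1) / s).choose (t - 1) := Nat.mul_le_mul_left _ key
      _ ≤ _ := Pool.Agent.NK.Base.block_le n t (by omega) (by omega) _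

end Pool.Agent.helper37.NG
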